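import Pool.Agent.H933.LL.Stm

/-!
# Bochner integrals of the resolvent: `P_comm` and `P_loc`
-/

set_option autoImplicit false

open MeasureTheory Metric
open scoped Real

namespace Pool.Agent.H571.LL

open Pool.Agent.H933.LL

variable {X : Type} [NormedAddCommGroup X] [NormedSpace ℂ X] [CompleteSpace X]

/-- the resolvent vanishes off the resolvent set -/
theorem resolvent_eq_indicator (T : X →L[ℂ] X) :
    resolvent T = (resolventSet ℂ T).indicator (resolvent T) := by
  funext z
  by_cases hz : z ∈ resolventSet ℂ T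
  · rw [Set.indicator_of_mem hz]
  · rw [Set.indicator_of_notMem hz]
    exact Ring.inverse_non_unit _ hz

/-- (a) the resolvent is a.e. strongly measurable for every measure on `ℂ` -/
theorem aesm_resolvent (T : X →L[ℂ] X) (μ : Measure ℂ) :
    AEStronglyMeasurable (resolvent T : ℂ → (X →L[ℂ] X)) μ := by
  have ho : IsOpen (resolventSet ℂ T) := spectrum.isOpen_resolventSet T
  rw [resolvent_eq_indicator T, aestronglyMeasurable_indicator_iff ho.measurableSet]
  refine ContinuousOn.aestronglyMeasurable ?_ ho.measurableSet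
  intro z hz
  exact (spectrum.hasDerivAt_resolvent_const_left hz).continuousAt.continuousWithinAt

/-- (b) the integrand of `Op` is integrable -/
theorem integrable_smul_resolvent {T : X →L[ℂ] X} {l : ℂ} {r : ℝ} {h : ℂ → ℂ}
    (H : Adm T l r h) : IntegrableOn (fun z => h z • resolvent T z) (ball l r) := by
  refine Integrable.mono H.int (H.meas.smul (aesm_resolvent T _)) ?_
  refine Filter.Eventually.of_forall fun z => ?_
  rw [norm_smul, norm_mul, norm_norm, norm_norm]

/-- bounded multiples of the integrand are integrable -/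
theorem integrable_mul_smul_resolvent {T : X →L[ℂ] X} {l : ℂ} {r : ℝ} {h : ℂ → ℂ}
    (H : Adm T l r h) {g : ℂ → ℂ} (hg : AEStronglyMeasurable g (volume.restrict (ball l r)))
    {C : ℝ} (hC : ∀ z ∈ ball l r, ‖g z‖ ≤ C) :
    IntegrableOn (fun z => (g z * h z) • resolvent T z) (ball l r) := by
  have h1 := integrable_smul_resolvent H
  refine Integrable.mono (h1.norm.const_mul C) ((hg.mul H.meas).smul (aesm_resolvent T _)) ?_
  rw [ae_restrict_iff' measurableSet_ball]
  refine Filter.Eventually.of_forall fun z hz => ?_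
  have hC0 : 0 ≤ C := (norm_nonneg _).trans (hC z hz)
  rw [norm_smul, norm_mul, norm_mul, norm_norm, norm_smul, Real.norm_of_nonneg hC0, mul_assoc]
  exact mul_le_mul_of_nonneg_right (hC z hz) (by positivity)

/-- an operator commuting with `T` commutes with its resolvents -/
theorem comm_resolvent {T Q : X →L[ℂ] X} (hQ : Q * T = T * Q) (z : ℂ) :
    Q * resolvent T z = resolvent T z * Q := by
  by_cases hz : z ∈ resolventSet ℂ T
  · have hu : IsUnit (algebraMap ℂ (X →L[ℂ] X) z - T) := hz
    have e : Q * (algebraMap ℂ (X →L[ℂ] X) z - T) = (algebraMap ℂ (X →L[ℂ] X) z - T) * Q := by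
      rw [mul_sub, sub_mul, hQ, Algebra.commutes]
    have h1 : (algebraMap ℂ (X →L[ℂ] X) z - T) * resolvent T z = 1 :=
      Ring.mul_inverse_cancel _ hu
    have h2 : resolvent T z * (algebraMap ℂ (X →L[ℂ] X) z - T) = 1 :=
      Ring.inverse_mul_cancel _ hu
    calc Q * resolvent T z
        = (resolvent T z * (algebraMap ℂ (X →L[ℂ] X) z - T)) * Q * resolvent T z := by
          rw [h2, one_mul]
      _ = resolvent T z * (Q * (algebraMap ℂ (X →L[ℂ] X) z - T)) * resolvent T z := by
          rw [e]; simp only [mul_assoc]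
      _ = resolvent T z * Q * ((algebraMap ℂ (X →L[ℂ] X) z - T) * resolvent T z) := by
          simp only [mul_assoc]
      _ = resolvent T z * Q := by rw [h1, mul_one]
  · have : resolvent T z = 0 := Ring.inverse_non_unit _ hz
    rw [this, mul_zero, zero_mul]

/-- **P_comm** for one operator -/
theorem op_comm {T : X →L[ℂ] X} {l : ℂ} {r : ℝ} {h : ℂ → ℂ} (H : Adm T l r h)
    (Q : X →L[ℂ] X) (hQ : Q * T = T * Q) : Q * Op T l r h = Op T l r h * Q := by
  have hi := integrable_smul_resolvent H
  unfold Op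
  rw [← integral_const_mul_of_integrable hi, ← integral_mul_const_of_integrable hi]
  refine integral_congr_ae (Filter.Eventually.of_forall fun z => ?_)
  show Q * (h z • resolvent T z) = (h z • resolvent T z) * Q
  rw [mul_smul_comm, smul_mul_assoc, comm_resolvent hQ]

/-- `(T - l) (z - T)⁻¹ = (z - l) (z - T)⁻¹ - 1` off the spectrum -/
theorem sub_mul_resolvent {T : X →L[ℂ] X} {l z : ℂ} (hz : z ∉ spectrum ℂ T) :
    (T - l • (1 : X →L[ℂ] X)) * resolvent T z = (z - l) • resolvent T z - 1 := by
  have hz' : z ∈ resolventSet ℂ T := by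
    by_contra h
    exact hz h
  have hu : IsUnit (algebraMap ℂ (X →L[ℂ] X) z - T) := hz'
  have h1 : (algebraMap ℂ (X →L[ℂ] X) z - T) * resolvent T z = 1 :=
    Ring.mul_inverse_cancel _ hu
  rw [Algebra.algebraMap_eq_smul_one, sub_mul, smul_mul_assoc, one_mul] at h1
  rw [sub_mul, smul_mul_assoc, one_mul, sub_smul, ← h1]
  abel

/-- the powers `(z - l)^n` are annihilated by an admissible density -/
theorem orth_pow {T : X →L[ℂ] X} {l : ℂ} {r : ℝ} {h : ℂ → ℂ} (H : Adm T l r h) (n : ℕ) :
    ∫ z in ball l r, h z * (z - l) ^ n = 0 := by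
  refine H.orth (fun z => (z - l) ^ n) ?_ ⟨r ^ n, fun z hz => ?_⟩
  · exact ((differentiable_id.sub_const l).pow n).differentiableOn
  · rw [norm_pow]
    exact pow_le_pow_left₀ (norm_nonneg _) (by
      have := mem_ball_iff_norm.1 hz
      exact this.le) n

/-- `(T - l)^n Op = ∫ (z - l)^n h(z) (z - T)⁻¹ dA` -/
theorem pow_mul_op {T : X →L[ℂ] X} {l : ℂ} {r : ℝ} {h : ℂ → ℂ}
    (hs : volume (spectrum ℂ T ∩ ball l r) = 0) (H : Adm T l r h) (n : ℕ) :
    (T - l • (1 : X →L[ℂ] X)) ^ n * Op T l r h =
      ∫ z in ball l r, ((z - l) ^ n * h z) • resolvent T z := by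
  have hb : ∀ n : ℕ, ∀ z ∈ ball l r, ‖(z - l) ^ n‖ ≤ r ^ n := fun n z hz => by
    rw [norm_pow]
    exact pow_le_pow_left₀ (norm_nonneg _) (mem_ball_iff_norm.1 hz).le n
  have hm : ∀ n : ℕ, AEStronglyMeasurable (fun z : ℂ => (z - l) ^ n)
      (volume.restrict (ball l r)) := fun n =>
    ((continuous_id.sub continuous_const).pow n).aestronglyMeasurable
  induction n with
  | zero => simp [Op]
  | succ n ih =>
    have hi : IntegrableOn (fun z => ((z - l) ^ n * h z) • resolvent T z) (ball l r) :=
      integrable_mul_smul_resolvent H (hm n) (hb n)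
    have hi' : IntegrableOn (fun z => ((z - l) ^ (n + 1) * h z) • resolvent T z) (ball l r) :=
      integrable_mul_smul_resolvent H (hm (n + 1)) (hb (n + 1))
    have hj0 : IntegrableOn (fun z => h z * (z - l) ^ n) (ball l r) := by
      refine Integrable.mono (H.hint.norm.const_mul (r ^ n)) (H.meas.mul (hm n)) ?_
      rw [ae_restrict_iff' measurableSet_ball]
      refine Filter.Eventually.of_forall fun z hz => ?_
      have hr0 : 0 ≤ r ^ n := (norm_nonneg _).trans (hb n z hz)
      rw [norm_mul, norm_mul, norm_norm, Real.norm_of_nonneg hr0, mul_comm]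
      exact mul_le_mul_of_nonneg_right (hb n z hz) (norm_nonneg _)
    have hj : IntegrableOn (fun z => (h z * (z - l) ^ n) • (1 : X →L[ℂ] X)) (ball l r) :=
      Integrable.smul_const hj0 _
    rw [pow_succ', mul_assoc, ih, ← integral_const_mul_of_integrable hi]
    have e : ∫ z in ball l r, (T - l • (1 : X →L[ℂ] X)) * (((z - l) ^ n * h z) • resolvent T z) =
        ∫ z in ball l r, (((z - l) ^ (n + 1) * h z) • resolvent T z -
          (h z * (z - l) ^ n) • (1 : X →L[ℂ] X)) := by
      refine integral_congr_ae ?_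
      have hae : ∀ᵐ z ∂(volume.restrict (ball l r)), z ∉ spectrum ℂ T := by
        rw [ae_restrict_iff' measurableSet_ball]
        rw [ae_iff]
        refine measure_mono_null ?_ hs
        intro z hz
        simp only [Set.mem_ofPred_eq, Classical.not_imp, not_not] at hz
        exact ⟨hz.2, hz.1⟩
      filter_upwards [hae] with z hz
      rw [mul_smul_comm, sub_mul_resolvent hz, smul_sub, smul_smul]
      congr 2 <;> ring
    rw [e, integral_sub hi' hj, integral_smul_const, orth_pow H n, zero_smul, sub_zero]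

/-- **P_loc** for one operator -/
theorem op_loc {T : X →L[ℂ] X} {l : ℂ} {r : ℝ} {h : ℂ → ℂ}
    (hs : volume (spectrum ℂ T ∩ ball l r) = 0) (H : Adm T l r h) (n : ℕ) :
    ‖(T - l • (1 : X →L[ℂ] X)) ^ n * Op T l r h‖ ≤
      (∫ z in ball l r, ‖h z‖ * ‖resolvent T z‖) * r ^ n := by
  rw [pow_mul_op hs H n, mul_comm, ← integral_const_mul]
  refine norm_integral_le_of_norm_le (Integrable.const_mul H.int (r ^ n)) ?_
  rw [ae_restrict_iff' measurableSet_ball]
  refine Filter.Eventually.of_forall fun z hz => ?_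
  rw [norm_smul, norm_mul, norm_pow, mul_assoc]
  exact mul_le_mul_of_nonneg_right
    (pow_le_pow_left₀ (norm_nonneg _) (mem_ball_iff_norm.1 hz).le n) (by positivity)

theorem p_comm : P_comm := by
  intro X _ _ _ T l r h _ H Q hQ
  exact op_comm H Q hQ

theorem p_loc : P_loc := by
  intro X _ _ _ T l r h hs H
  exact ⟨_, fun n => op_loc hs H n⟩

end Pool.Agent.H571.LL
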