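import Pool.Agent.H933.LL.Stm2

/-!
# Toeplitz operators with continuous symbols on a Hilbert space: `P_hilb`
-/

set_option autoImplicit false

open MeasureTheory Metric AddCircle
open scoped Real InnerProductSpace ENNReal

namespace Pool.Agent.H571.LL

open Pool.Agent.H933.LL

noncomputable section

/-- the space `L²` of the circle -/
abbrev LL2 : Type := Lp ℂ 2 (haarAddCircle : Measure UnitAddCircle)

/-- multiplication by a continuous function on `L²` -/
def mulC : C(UnitAddCircle, ℂ) →L[ℂ] (LL2 →L[ℂ] LL2) :=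
  ((ContinuousLinearMap.mul ℂ ℂ).holderL (haarAddCircle : Measure UnitAddCircle) ∞ 2 2) ∘L
    (ContinuousMap.toLp ∞ (haarAddCircle : Measure UnitAddCircle) ℂ)

theorem mulC_ae (φ : C(UnitAddCircle, ℂ)) (f : LL2) :
    mulC φ f =ᵐ[haarAddCircle] fun t => φ t * f t := by
  have h1 := (ContinuousLinearMap.mul ℂ ℂ).coeFn_holder (r := 2)
    (ContinuousMap.toLp ∞ (haarAddCircle : Measure UnitAddCircle) ℂ φ) f
  have h2 := ContinuousMap.coeFn_toLp (p := ∞) (haarAddCircle : Measure UnitAddCircle) (𝕜 := ℂ) φ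
  have h3 : mulC φ f = (ContinuousLinearMap.mul ℂ ℂ).holder 2
    (ContinuousMap.toLp ∞ (haarAddCircle : Measure UnitAddCircle) ℂ φ) f := rfl
  rw [h3]
  filter_upwards [h1, h2] with t e1 e2
  rw [e1, e2]
  rfl

theorem inner_mulC (φ : C(UnitAddCircle, ℂ)) (i j : ℤ) :
    ⟪(fourierLp 2 i : LL2), mulC φ (fourierLp 2 j : LL2)⟫_ℂ = fourierCoeff φ (i - j) := by
  rw [L2.inner_def]
  unfold fourierCoeff
  refine integral_congr_ae ?_
  filter_upwards [mulC_ae φ (fourierLp 2 j : LL2), coeFn_fourierLp (T := 1) 2 i,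
    coeFn_fourierLp (T := 1) 2 j] with t e1 e2 e3
  rw [e1, e2, e3]
  have e4 : (-(i - j) : ℤ) = -i + j := by ring
  rw [e4, fourier_add, fourier_neg, smul_eq_mul, RCLike.inner_apply]
  ring

section
variable {H : Type} [NormedAddCommGroup H] [InnerProductSpace ℂ H] [CompleteSpace H]

theorem orth_nat : Orthonormal ℂ (fun n : ℕ => (fourierLp 2 (n : ℤ) : LL2)) :=
  (orthonormal_fourier (T := 1)).comp (fun n : ℕ => (n : ℤ)) Nat.cast_injective

/-- the isometry with `J (e n) = fourierLp 2 n` -/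
def J (e : HilbertBasis ℕ ℂ H) : H →L[ℂ] LL2 :=
  orth_nat.orthogonalFamily.linearIsometry.toContinuousLinearMap ∘L
    (e.repr.toContinuousLinearEquiv : H →L[ℂ] _)

theorem J_apply (e : HilbertBasis ℕ ℂ H) (n : ℕ) : J e (e n) = (fourierLp 2 (n : ℤ) : LL2) := by
  have h1 : J e (e n) = orth_nat.orthogonalFamily.linearIsometry (e.repr (e n)) := rfl
  rw [h1, e.repr_self, orth_nat.orthogonalFamily.linearIsometry_apply_single]
  simp

/-- the Toeplitz map -/
def Th (e : HilbertBasis ℕ ℂ H) : C(UnitAddCircle, ℂ) →L[ℂ] (H →L[ℂ] H) :=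
  (ContinuousLinearMap.compL ℂ H LL2 H (ContinuousLinearMap.adjoint (J e))) ∘L
    ((ContinuousLinearMap.compL ℂ H LL2 LL2).flip (J e)) ∘L mulC

theorem Th_apply (e : HilbertBasis ℕ ℂ H) (φ : C(UnitAddCircle, ℂ)) (x : H) :
    Th e φ x = ContinuousLinearMap.adjoint (J e) (mulC φ (J e x)) := rfl

theorem Th_entry (e : HilbertBasis ℕ ℂ H) (φ : C(UnitAddCircle, ℂ)) (i j : ℕ) :
    ⟪e i, Th e φ (e j)⟫_ℂ = fourierCoeff φ ((i : ℤ) - (j : ℤ)) := by
  rw [Th_apply, ContinuousLinearMap.adjoint_inner_right, J_apply, J_apply, inner_mulC]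

theorem ext_basis (e : HilbertBasis ℕ ℂ H) {x y : H} (h : ∀ i, ⟪e i, x⟫_ℂ = ⟪e i, y⟫_ℂ) :
    x = y := by
  apply e.repr.injective
  ext i
  rw [e.repr_apply_apply, e.repr_apply_apply, h i]

theorem ext_op (e : HilbertBasis ℕ ℂ H) {A B : H →L[ℂ] H} (h : ∀ j, A (e j) = B (e j)) :
    A = B := by
  have hd : Dense (Submodule.span ℂ (Set.range e) : Set H) := by
    rw [Submodule.dense_iff_topologicalClosure_eq_top]
    exact e.dense_span
  refine ContinuousLinearMap.ext_on hd ?_
  rintro _ ⟨j, rfl⟩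
  exact h j

theorem Th_fourier (e : HilbertBasis ℕ ℂ H) (n : ℤ) (j m : ℕ) (h : (m : ℤ) = n + j) :
    Th e (fourier n) (e j) = e m := by
  refine ext_basis e fun i => ?_
  rw [Th_entry, fourierCoeff_fourier, orthonormal_iff_ite.1 e.orthonormal, Pi.single_apply]
  by_cases hi : i = m
  · subst hi
    rw [if_pos rfl, if_pos (by omega)]
  · rw [if_neg hi, if_neg (by omega)]

theorem Th_fourier_neg (e : HilbertBasis ℕ ℂ H) (n : ℤ) (j : ℕ) (h : n + j < 0) :
    Th e (fourier n) (e j) = 0 := by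
  refine ext_basis e fun i => ?_
  rw [Th_entry, fourierCoeff_fourier, Pi.single_apply, inner_zero_right, if_neg (by omega)]

theorem p_hilb : P_hilb := by
  intro H _ _ _ e
  have hS : ∀ j n : ℕ, ((Th e (fourier 1)) ^ n) (e j) = e (j + n) := by
    intro j n
    induction n with
    | zero => simp
    | succ n ih =>
      rw [pow_succ', ContinuousLinearMap.mul_apply, ih]
      exact Th_fourier e 1 (j + n) (j + (n + 1)) (by push_cast; ring)
  have hR : ∀ n j : ℕ, ((Th e (fourier (-1))) ^ n) (e j) = if n ≤ j then e (j - n) else 0 := by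
    intro n j
    induction n with
    | zero => simp
    | succ n ih =>
      rw [pow_succ', ContinuousLinearMap.mul_apply, ih]
      by_cases h : n + 1 ≤ j
      · rw [if_pos (by omega), if_pos h]
        exact Th_fourier e (-1) (j - n) (j - (n + 1)) (by omega)
      · rw [if_neg h]
        by_cases h' : n ≤ j
        · rw [if_pos h']
          exact Th_fourier_neg e (-1) (j - n) (by omega)
        · rw [if_neg h', map_zero]
  refine ⟨Th e (fourier 1), Th e (fourier (-1)), Th e, ?_, ?_, ?_, ?_, Th_entry e⟩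
  · refine ext_op e fun j => ?_
    rw [ContinuousLinearMap.mul_apply, Th_fourier e 1 j (j + 1) (by push_cast; ring)]
    exact Th_fourier e (-1) (j + 1) j (by push_cast; ring)
  · intro h
    have h0 := congrArg (fun A : H →L[ℂ] H => A (e 0)) h
    simp only [ContinuousLinearMap.mul_apply] at h0
    rw [Th_fourier_neg e (-1) 0 (by norm_num), map_zero] at h0
    have h1 : ‖e 0‖ = 1 := e.orthonormal.1 0
    have h2 : e 0 = 0 := h0.symm
    rw [h2, norm_zero] at h1
    exact zero_ne_one h1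
  · intro n
    refine ext_op e fun j => ?_
    rw [hS j n]
    exact Th_fourier e n j (j + n) (by push_cast; ring)
  · intro n
    refine ext_op e fun j => ?_
    rw [hR n j]
    by_cases h : n ≤ j
    · rw [if_pos h]
      exact Th_fourier e (-(n : ℤ)) j (j - n) (by omega)
    · rw [if_neg h]
      exact Th_fourier_neg e (-(n : ℤ)) j (by omega)

end

end

end Pool.Agent.H571.LL
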